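import Pool.Agent.Helper10.RS.Goals

namespace Pool.Agent.Helper92.RS

open Pool.Agent.Helper10.RS

theorem fac_le (k q : ℕ) (hq : q.Prime) : k.factorial.factorization q ≤ k := by
  induction k with
  | zero => simp
  | succ k ih =>
    by_cases hk : k = 0
    · subst hk
      simp
    rw [Nat.factorization_factorial hq (b := Nat.log q (k + 1) + 1) (Nat.lt_succ_self _)]
    have h1 : ∀ i ∈ Finset.Ico 1 (Nat.log q (k + 1) + 1), (k + 1) / q ^ i ≤ (k + 1) / 2 ^ i := by
      intro i _
      exact Nat.div_le_div_left (Nat.pow_le_pow_left hq.two_le i) (by positivity)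
    refine (Finset.sum_le_sum h1).trans ?_
    exact Nat.geom_sum_Ico_le (le_refl 2) (k + 1) _ |>.trans (by simp)

theorem p_val : VAL := by
  intro n m q hmn hq
  have h1 : n.factorial / m.factorial = n.choose m * (n - m).factorial := by
    rw [← Nat.choose_mul_factorial_mul_factorial hmn, mul_assoc, mul_comm m.factorial, ← mul_assoc]
    exact Nat.mul_div_cancel _ (Nat.factorial_pos m)
  rw [h1, Nat.factorization_mul (Nat.choose_pos hmn).ne' (Nat.factorial_pos _).ne',
    Finsupp.add_apply]
  have h2 : (n.choose m).factorization q ≤ Nat.log q n := Nat.factorization_choose_le_log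
  have h3 := fac_le (n - m) q hq
  have h4 : Nat.log q n ≤ Nat.log 2 n := Nat.log_anti_left (by norm_num) hq.two_le
  omega

end Pool.Agent.Helper92.RS
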